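import Pool.Agent.helper1.VD.SpecA2

set_option autoImplicit false

/-! Row AWRG of project VD (MP_07c750_an). -/

open Set Filter Topology MeasureTheory ContDiff
open scoped InnerProductSpace

namespace Pool.Agent.VD

open Pool.Agent.VQ (CH)

theorem AWRG_coord {d : ℕ} (i : Fin d) : ContDiff ℝ ∞ (fun w : V d => w i) :=
  (EuclideanSpace.proj i : EuclideanSpace ℝ (Fin d) →L[ℝ] ℝ).contDiff

theorem AWRG_ofReal {E : Type} [NormedAddCommGroup E] [NormedSpace ℝ E] {f : E → ℝ} (hf : ContDiff ℝ ∞ f) :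
    ContDiff ℝ ∞ (fun x => ((f x : ℝ) : ℂ)) :=
  Complex.ofRealCLM.contDiff.comp hf

theorem AWRG_qf {E : Type} [NormedAddCommGroup E] [NormedSpace ℝ E] {d : ℕ} {M : E → MC d} {v : E → V d}
    (hM : ∀ i j, ContDiff ℝ ∞ (fun x => M x i j)) (hv : ContDiff ℝ ∞ v) : ContDiff ℝ ∞ (fun x => qf (M x) (v x)) := by
  unfold qf
  refine ContDiff.sum fun i _ => ContDiff.sum fun j _ => ?_
  refine (hM i j).mul (AWRG_ofReal ?_)
  exact ((AWRG_coord i).comp hv).mul ((AWRG_coord j).comp hv)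

theorem AWRG_proof (hAWMT : AWMT_stmt) (hGXH : GXH_stmt) (hAMVI : AMVI_stmt) : AWRG_stmt := by
  intro d Γ _ _ K k B G Φ L Y0 P0 ch ζ1 R hO hL hch
  have hM := (hAWMT d G Φ hO.cls.met hO.flow L Y0 P0 hL).2.1
  have hHam := (hGXH d G hO.cls.met).1
  have hdens := (hAMVI d Γ K k B G hO.fd hO.cls).2.1
  have hpos := (hAMVI d Γ K k B G hO.fd hO.cls).2.2.1
  have hp : ContDiff ℝ ∞ (fun x : (P d × ℝ) × V d => x.1.1) := contDiff_fst.comp contDiff_fst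
  have ht : ContDiff ℝ ∞ (fun x : (P d × ℝ) × V d => x.1.2) := contDiff_snd.comp contDiff_fst
  have hw : ContDiff ℝ ∞ (fun x : (P d × ℝ) × V d => x.2) := contDiff_snd
  have hΦ : ContDiff ℝ ∞ (fun x : (P d × ℝ) × V d => Φ x.1.2 x.1.1) := hO.flow.smooth.comp (ht.prodMk hp)
  have hΦ1 : ContDiff ℝ ∞ (fun x : (P d × ℝ) × V d => (Φ x.1.2 x.1.1).1) := contDiff_fst.comp hΦ
  have hΦ2 : ContDiff ℝ ∞ (fun x : (P d × ℝ) × V d => (Φ x.1.2 x.1.1).2) := contDiff_snd.comp hΦ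
  have hv : ContDiff ℝ ∞ (fun x : (P d × ℝ) × V d => x.2 - (Φ x.1.2 x.1.1).1) := hw.sub hΦ1
  have hMx : ∀ i j, ContDiff ℝ ∞ (fun x : (P d × ℝ) × V d => Mt Φ x.1.1 Y0 P0 x.1.2 i j) :=
    fun i j => (hM i j).comp contDiff_fst
  have hH : ContDiff ℝ ∞ (fun x : (P d × ℝ) × V d => Ham G x.1.1) := hHam.comp hp
  have e1 : ContDiff ℝ ∞ (fun x : (P d × ℝ) × V d =>
      Complex.exp (((R * ((Ham G x.1.1 + 1 / 2) * x.1.2) : ℝ) : ℂ) * Complex.I)) := by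
    refine ContDiff.cexp ?_
    refine (AWRG_ofReal ?_).mul contDiff_const
    exact contDiff_const.mul ((hH.add contDiff_const).mul ht)
  have e2 : ContDiff ℝ ∞ (fun x : (P d × ℝ) × V d =>
      ((ch (R ^ (1 - 2 * ζ1) * ‖x.2 - (Φ x.1.2 x.1.1).1‖ ^ 2) / Real.sqrt (dens G x.2) : ℝ) : ℂ)) := by
    refine AWRG_ofReal ?_
    refine ContDiff.div ?_ ?_ ?_
    · exact hch.smooth.comp (contDiff_const.mul (hv.norm_sq ℝ))
    · exact (hdens.comp hw).sqrt fun x => (hpos x.2).ne'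
    · intro x
      exact (Real.sqrt_pos.2 (hpos x.2)).ne'
  have e3 : ContDiff ℝ ∞ (fun x : (P d × ℝ) × V d =>
      Complex.exp (Complex.I * (R : ℂ) * (((⟪(Φ x.1.2 x.1.1).2, x.2 - (Φ x.1.2 x.1.1).1⟫_ℝ : ℝ) : ℂ) +
        qf (Mt Φ x.1.1 Y0 P0 x.1.2) (x.2 - (Φ x.1.2 x.1.1).1) / 2))) := by
    refine ContDiff.cexp ?_
    refine contDiff_const.mul (ContDiff.add ?_ ?_)
    · exact AWRG_ofReal (hΦ2.inner ℝ hv)
    · exact (AWRG_qf hMx hv).div_const 2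
  exact e1.mul (e2.mul e3)

end Pool.Agent.VD
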