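import Pool.Agent.helper84.VD.SpecB5

set_option autoImplicit false

/-! Row DWT of project VD (MP_07c750_an). -/

open scoped ContDiff Topology InnerProductSpace ENNReal
open MeasureTheory Filter Set

namespace Pool.Agent.VD

open Pool.Agent.VQ (CH qZ)
open Pool.Agent.VDE (dir)

noncomputable section

theorem DWT_geo {d : ℕ} {Γ : Type} [Group Γ] [MulAction Γ (V d)] {K : Set (V d)} {C C2 : ℝ} {G : V d → V d →L[ℝ] V d}
    {Φ : ℝ → P d → P d} {D : P d → P d → ℝ} (h : GEO Γ K C G Φ D) (hC : C ≤ C2) : GEO Γ K C2 G Φ D := by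
  have C0 : 0 < C := lt_of_lt_of_le one_pos h.C1
  have C20 : 0 < C2 := lt_of_lt_of_le C0 hC
  have hinv : 1 / C2 ≤ 1 / C := one_div_le_one_div_of_le C0 hC
  exact {
    C1 := h.C1.trans hC
    met := h.met
    fl := h.fl
    hs := h.hs
    dif := h.dif
    l1 := h.l1
    lm := h.lm
    lf := h.lf
    hm := h.hm
    cov := h.cov
    wl := h.wl
    ws := h.ws
    dh := h.dh
    ox := h.ox
    wx := h.wx
    mx := h.mx
    om := h.om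
    al := h.al
    b0 := fun z hz => by
      obtain ⟨h1, h2, h3, h4, h5⟩ := h.b0 z hz
      refine ⟨h1.trans hC, h2.trans hC, h3.trans hC, fun u => (h4 u).trans ?_, fun v => (h5 v).trans ?_⟩
      · refine mul_le_mul_of_nonneg_right hC ?_
        by_contra hneg
        rw [not_le] at hneg
        have h6 := h4 u
        have h7 : C * ⟪G z.1 u, u⟫_ℝ < 0 := mul_neg_of_pos_of_neg C0 hneg
        have h8 : 0 ≤ ‖u‖ ^ 2 := sq_nonneg _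
        linarith
      · exact mul_le_mul_of_nonneg_right hC (norm_nonneg _)
    bh := fun z hz p q hp hq => by
      obtain ⟨h1, h2⟩ := h.bh z hz p q hp hq
      exact ⟨h1.trans hC, h2.trans (mul_le_mul_of_nonneg_right hC (norm_nonneg _))⟩
    bq := fun z hz p v hp => (h.bq z hz p v hp).trans (by gcongr)
    bm := fun γ z hz z' hz' t ht hn q q' hq hq' => by
      obtain ⟨h1, h2⟩ := h.bm γ z hz z' hz' t ht (hn.trans hinv) q q' (hq.trans hinv) (hq'.trans hinv)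
      exact ⟨h1.trans hC, h2.trans (mul_le_mul_of_nonneg_right hC (norm_nonneg _))⟩
    jq := fun γ z hz t ht ht' p v hp hpz hv => by
      refine le_trans ?_ (h.jq γ z hz t ht ht' p v hp (hpz.trans hinv) hv)
      have h1 : ‖v‖ ^ 2 / C2 ≤ ‖v‖ ^ 2 / C := div_le_div_of_nonneg_left (sq_nonneg _) C0 hC
      have h2 : C * ⟪p.2, v.1⟫_ℝ ^ 2 ≤ C2 * ⟪p.2, v.1⟫_ℝ ^ 2 := mul_le_mul_of_nonneg_right hC (sq_nonneg _)
      linarith
    d0 := h.d0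
    dt := h.dt
    di := h.di
    d1 := fun z hz p q hp hq => (h.d1 z hz p q hp hq).trans (mul_le_mul_of_nonneg_right hC (norm_nonneg _))
    d2 := fun z hz p q hp hq => (h.d2 z hz p q (hp.trans hinv) (hq.trans hinv)).trans
      (mul_le_mul_of_nonneg_right hC (h.d0 p q).1) }

theorem DWT_lft {d : ℕ} {Γ : Type} [Group Γ] [MulAction Γ (V d)] (γ : Γ) (l : ℝ) (p : P d) :
    lft γ (sc l p) = sc l (lft γ p) := by
  unfold lft sc
  simp only [map_smul]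

theorem DWT_win {d : ℕ} {Γ : Type} {G : V d → V d →L[ℝ] V d} (hH : ∀ p : P d, nrm G p ^ 2 = 2 * Ham G p) {r0 c R : ℝ}
    {y : YS Γ d} (hy : y ∈ GW Γ G r0 c R) (hR : c * R ^ (-(1 / 4) : ℝ) ≤ 1 / 8) : 3 / 4 ≤ nrm G y.2 ∧ nrm G y.2 ≤ 5 / 4 := by
  have h1 := hy.2.trans hR
  unfold Ep at h1
  have h2 := hH y.2
  have h3 : 0 ≤ nrm G y.2 := Real.sqrt_nonneg _
  obtain ⟨h4, h5⟩ := abs_le.1 h1
  constructor <;> nlinarith

theorem DWT_near {d : ℕ} {Γ : Type} [Group Γ] [MulAction Γ (V d)] {r0 r' C δ l : ℝ} {G : V d → V d →L[ℝ] V d}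
    {Φ : ℝ → P d → P d} {D : P d → P d → ℝ} (hG : GEO Γ (Metric.closedBall 0 r') C G Φ D) (hE : EFL C G Φ D)
    (hr : r0 + 1 ≤ r') {p q : P d} (hq : ‖q.1‖ ≤ r0) (hl : 3 / 4 ≤ l) (hl' : l ≤ 5 / 4) (hn : 3 / 4 ≤ nrm G q)
    (hn' : nrm G q ≤ 5 / 4) (hp : nrm G p = 1) (hδ : 0 ≤ δ) (hD : D (sc l p) q ≤ δ) (hC : 4 * C ^ 3 * δ ≤ 1) :
    p ∈ SK (Metric.closedBall 0 r') G := by
  have C1 : 1 ≤ C := hE.C1
  have C0 : 0 < C := lt_of_lt_of_le one_pos C1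
  have l0 : 0 < l := by linarith
  have n0 : 0 < nrm G q := by linarith
  have hnp : nrm G (sc l p) = l := by rw [hE.sn, hp, mul_one, abs_of_pos l0]
  have h1 : |l - nrm G q| ≤ C * δ := by
    have h2 := hE.nl (sc l p) q (by rw [hnp]; linarith) (by linarith)
    rw [hnp] at h2
    exact h2.trans (mul_le_mul_of_nonneg_left hD C0.le)
  have hsc : sc (1 / l) (sc l p) = p := by
    unfold sc
    simp only [smul_smul]
    rw [one_div, inv_mul_cancel₀ l0.ne', one_smul]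
  have h1l : 1 / l ≤ 2 := by
    rw [div_le_iff₀ l0]
    linarith
  have h2 : D p (sc (1 / l) q) ≤ 2 * δ := by
    have h3 := hE.s2 (sc l p) q (1 / l) (by positivity) h1l
    rw [hsc] at h3
    exact h3.trans (by linarith)
  have hdir : sc (1 / l) q = sc (nrm G q / l) (dir G q) := by
    unfold sc dir
    simp only [smul_smul]
    congr 2
    field_simp
  have hnd : nrm G (dir G q) = 1 := by
    have h3 : dir G q = sc (nrm G q)⁻¹ q := rfl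
    rw [h3, hE.sn, abs_of_pos (inv_pos.2 n0), inv_mul_cancel₀ n0.ne']
  have h4 : D (dir G q) (sc (1 / l) q) ≤ 4 / 3 * C ^ 2 * δ := by
    rw [hdir]
    have h5 : nrm G q / l ≤ 2 := by
      rw [div_le_iff₀ l0]
      linarith
    have h6 := hE.s1 (dir G q) (nrm G q / l) (by rw [hnd]; norm_num) (by positivity) h5
    have h7 : |nrm G q / l - 1| ≤ 4 / 3 * (C * δ) := by
      have h8 : nrm G q / l - 1 = (nrm G q - l) / l := by field_simp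
      rw [h8, abs_div, abs_of_pos l0, div_le_iff₀ l0, abs_sub_comm]
      have h9 : 0 ≤ C * δ := by positivity
      nlinarith
    calc D (dir G q) (sc (nrm G q / l) (dir G q)) ≤ C * |nrm G q / l - 1| := h6
      _ ≤ C * (4 / 3 * (C * δ)) := mul_le_mul_of_nonneg_left h7 C0.le
      _ = 4 / 3 * C ^ 2 * δ := by ring
  have h5 : D (dir G q) p ≤ 4 * C ^ 2 * δ := by
    have h6 := hE.dt (dir G q) (sc (1 / l) q) p
    rw [(hE.d0 (sc (1 / l) q) p).2.2] at h6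
    have h7 : δ ≤ C ^ 2 * δ := le_mul_of_one_le_left hδ (one_le_pow₀ C1)
    linarith
  have h6 : C * (4 * C ^ 2 * δ) ≤ 1 := by
    have h7 : C * (4 * C ^ 2 * δ) = 4 * C ^ 3 * δ := by ring
    rw [h7]
    exact hC
  have h7 : D (dir G q) p ≤ 1 / C := by
    rw [le_div_iff₀ C0]
    nlinarith
  have hmem : dir G q ∈ SK (Metric.closedBall 0 r') G := by
    refine ⟨?_, hnd⟩
    rw [mem_closedBall_zero_iff]
    change ‖q.1‖ ≤ r'
    linarith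
  have h8 := hG.d2 (dir G q) hmem (dir G q) p (by rw [sub_self, norm_zero]; positivity) h7
  have h9 : ‖dir G q - p‖ ≤ 1 := by nlinarith
  refine ⟨?_, hp⟩
  rw [mem_closedBall_zero_iff]
  have h10 : ‖(dir G q - p).1‖ ≤ ‖dir G q - p‖ := norm_fst_le _
  have h11 : (dir G q - p).1 = q.1 - p.1 := rfl
  rw [h11] at h10
  have h12 : ‖p.1‖ ≤ ‖q.1‖ + ‖q.1 - p.1‖ := by
    have h13 := norm_sub_le q.1 (q.1 - p.1)
    rwa [sub_sub_cancel] at h13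
  linarith

/-- the estimate for a fixed `R` -/
theorem DWT_core {m : ℕ} {Γ : Type} [Group Γ] [MulAction Γ (V (m + 1))] {r0 r' C K1 ρ0 M c C' e0 e1 s X l : ℝ}
    {G : V (m + 1) → V (m + 1) →L[ℝ] V (m + 1)} {Φ : ℝ → P (m + 1) → P (m + 1)} {D : P (m + 1) → P (m + 1) → ℝ}
    {κ : P (m + 1) → Z m → P (m + 1)} (hG : GEO Γ (Metric.closedBall 0 r') C G Φ D) (hE : EFL C G Φ D) (hr : r0 + 1 ≤ r')
    (hS : SEC c C' e0 e1 (Shl G) D Φ κ) (b n0 : ℕ) (hb : 1 ≤ b) (hn0 : 1 ≤ n0) (w : ℕ → YS Γ (m + 1)) (v0 : W m)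
    (hl : l = nrm G (w 0).2) (hl1 : 3 / 4 ≤ l) (hl2 : l ≤ 5 / 4) (hw1 : ∀ j ≤ b, ‖(w j).2.1‖ ≤ r0)
    (hw2 : ∀ j ≤ b, 3 / 4 ≤ nrm G (w j).2 ∧ nrm G (w j).2 ≤ 5 / 4) (hv0 : ‖v0‖ ≤ s) (hs0 : 0 < s) (hse1 : s ≤ e1)
    (hsρ : s ≤ ρ0) (hC : 4 * C ^ 3 * (5 * s) ≤ 1) (hM : M ^ (n0 + 1) * (5 * s) ≤ 1) (hM1 : 1 ≤ M) (hK1 : 1 ≤ K1)
    (hD : ∀ j ≤ b, D (sc l (Φ (j * n0 * l) (κ (dir G (w 0).2) (0, v0)))) (lft ((w 0).1⁻¹ * (w j).1) (w j).2) ≤ 5 * s)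
    (hDPR : ∀ (z : P (m + 1)) (l : ℝ) (b n0 : ℕ) (gam : ℕ → Γ), nrm G z = 1 → 3 / 4 ≤ l → l ≤ 5 / 4 → 1 ≤ b → 1 ≤ n0 →
      (∀ j ≤ b, lft (gam j) (Φ (j * n0 * l) z) ∈ SK (Metric.closedBall 0 r') G) →
      (∀ j < b, 1 ≤ K1 * |(Bx Φ (gam (j + 1) * (gam j)⁻¹) (n0 * l) (lft (gam j) (Φ (j * n0 * l) z))).det|) ∧
      ∀ ρ : ℝ, 0 < ρ → ρ ≤ ρ0 → ENNReal.ofReal (ρ ^ m) ≤ ENNReal.ofReal (K1 ^ b *
        ∏ j ∈ Finset.range b, |(Bx Φ (gam (j + 1) * (gam j)⁻¹) (n0 * l) (lft (gam j) (Φ (j * n0 * l) z))).det|) *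
        volume {w : W m | ‖w‖ ≤ e0 ∧ ∀ i ≤ b * n0, D (Φ (i * l) z) (Φ (i * l) (κ z (0, w))) ≤ ρ})
    (hDCM : ∀ (n : ℕ) (γ : Γ) (l s : ℝ) (p q : P (m + 1)), 3 / 4 ≤ l → l ≤ 5 / 4 → p ∈ SK (Metric.closedBall 0 r') G →
      MM Φ γ (n * l, p) ∈ SK (Metric.closedBall 0 r') G → nrm G q ≤ 3 / 2 → 0 ≤ s → D (sc l p) q ≤ s →
      M ^ (n + 1) * s ≤ 1 → 1 ≤ K1 * |(Bx Φ γ (n * l) p).det| → |(Bx Φ γ (n * l) p).det| ≤ M * |(Bx Φ γ n q).det|)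
    (u : ℕ → ℂ) (hu : ∀ j < b, ‖u j‖ ^ 2 * |(Bx Φ ((w (j + 1)).1⁻¹ * (w j).1) n0 (w j).2).det| ≤ X) :
    ENNReal.ofReal (s ^ m) * ∏ j ∈ Finset.range b, ‖u j‖ₑ ^ 2 ≤ ENNReal.ofReal ((K1 * M * X) ^ b) *
      volume {v : W m | ‖v‖ ≤ e0 ∧ ∀ i ≤ b * n0, D (Φ (i * l) (κ (dir G (w 0).2) (0, v0)))
        (Φ (i * l) (κ (κ (dir G (w 0).2) (0, v0)) (0, v))) ≤ s} := by
  have l0 : 0 < l := by linarith
  have hM0 : 0 < M := by linarith
  have hK0 : 0 < K1 := by linarith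
  have hz : nrm G (dir G (w 0).2) = 1 := by
    have h3 : dir G (w 0).2 = sc (nrm G (w 0).2)⁻¹ (w 0).2 := rfl
    rw [h3, hE.sn, ← hl, abs_of_pos (inv_pos.2 l0), inv_mul_cancel₀ l0.ne']
  have hz0 : nrm G (κ (dir G (w 0).2) (0, v0)) = 1 := by
    refine hS.mem _ hz (0, v0) ?_
    rw [Prod.norm_mk, norm_zero]
    exact max_le (hs0.le.trans hse1) (hv0.trans hse1)
  set z0 := κ (dir G (w 0).2) (0, v0) with hz0def
  obtain ⟨gam, hgam⟩ : ∃ gam : ℕ → Γ, gam = fun j => (w j).1⁻¹ * (w 0).1 := ⟨_, rfl⟩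
  obtain ⟨p, hp⟩ : ∃ p : ℕ → P (m + 1), p = fun j : ℕ => lft (gam j) (Φ (j * n0 * l) z0) := ⟨_, rfl⟩
  have hpj : ∀ j : ℕ, lft (gam j) (Φ (j * n0 * l) z0) = p j := fun j => by rw [hp]
  have hpn : ∀ j, nrm G (p j) = 1 := by
    intro j
    rw [← hpj]
    exact (hG.hm (gam j) (j * n0 * l) z0).1.trans hz0
  have hq : ∀ j ≤ b, D (sc l (p j)) (w j).2 ≤ 5 * s := by
    intro j hj
    have h1 := hD j hj
    rw [← hG.di (gam j), DWT_lft, ← hG.lm, hpj] at h1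
    have h2 : gam j * ((w 0).1⁻¹ * (w j).1) = 1 := by
      rw [hgam]
      group
    rwa [h2, hG.l1] at h1
  have hpmem : ∀ j ≤ b, p j ∈ SK (Metric.closedBall 0 r') G := fun j hj =>
    DWT_near hG hE hr (hw1 j hj) hl1 hl2 (hw2 j hj).1 (hw2 j hj).2 (hpn j) (by positivity) (hq j hj) hC
  obtain ⟨d1, d2⟩ := hDPR z0 l b n0 gam hz0 hl1 hl2 hb hn0 (fun j hj => by rw [hpj]; exact hpmem j hj)
  have d3 := d2 s hs0 hsρ
  have hg : ∀ j, gam (j + 1) * (gam j)⁻¹ = (w (j + 1)).1⁻¹ * (w j).1 := by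
    intro j
    rw [hgam]
    group
  have hstep : ∀ j, MM Φ (gam (j + 1) * (gam j)⁻¹) (n0 * l, p j) = p (j + 1) := by
    intro j
    rw [← hpj j, ← hpj (j + 1)]
    unfold MM
    change lft (gam (j + 1) * (gam j)⁻¹) (Φ (n0 * l) (lft (gam j) (Φ (j * n0 * l) z0))) = _
    rw [hG.lf, ← hG.lm, inv_mul_cancel_right, ← hG.fl.add]
    congr 2
    push_cast
    ring
  simp only [hpj] at d1 d3
  obtain ⟨dt, hdt⟩ : ∃ dt : ℕ → ℝ, dt = fun j : ℕ => |(Bx Φ (gam (j + 1) * (gam j)⁻¹) (n0 * l) (p j)).det| := ⟨_, rfl⟩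
  have hdtj : ∀ j : ℕ, |(Bx Φ (gam (j + 1) * (gam j)⁻¹) (n0 * l) (p j)).det| = dt j := fun j => by rw [hdt]
  have hdt0 : ∀ j, 0 ≤ dt j := fun j => by rw [← hdtj]; exact abs_nonneg _
  have hdet : ∀ j < b, ‖u j‖ ^ 2 * dt j ≤ M * X := by
    intro j hj
    have h1 := hDCM n0 (gam (j + 1) * (gam j)⁻¹) l (5 * s) (p j) (w j).2 hl1 hl2 (hpmem j hj.le)
      (by rw [hstep]; exact hpmem (j + 1) hj) (by linarith [(hw2 j hj.le).2]) (by positivity) (hq j hj.le) hM (d1 j hj)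
    rw [hdtj, hg] at h1
    calc ‖u j‖ ^ 2 * dt j ≤ ‖u j‖ ^ 2 * (M * |(Bx Φ ((w (j + 1)).1⁻¹ * (w j).1) n0 (w j).2).det|) :=
          mul_le_mul_of_nonneg_left h1 (sq_nonneg _)
      _ = M * (‖u j‖ ^ 2 * |(Bx Φ ((w (j + 1)).1⁻¹ * (w j).1) n0 (w j).2).det|) := by ring
      _ ≤ M * X := mul_le_mul_of_nonneg_left (hu j hj) hM0.le
  simp only [hdtj] at d3
  have hprod : ∏ j ∈ Finset.range b, ‖u j‖ₑ ^ 2 = ENNReal.ofReal (∏ j ∈ Finset.range b, ‖u j‖ ^ 2) := by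
    rw [ENNReal.ofReal_prod_of_nonneg fun j _ => sq_nonneg _]
    refine Finset.prod_congr rfl fun j _ => ?_
    rw [ENNReal.ofReal_pow (norm_nonneg _), ofReal_norm_eq_enorm]
  have hreal : (K1 ^ b * ∏ j ∈ Finset.range b, dt j) * ∏ j ∈ Finset.range b, ‖u j‖ ^ 2 ≤ (K1 * M * X) ^ b := by
    have h1 : (K1 ^ b * ∏ j ∈ Finset.range b, dt j) * ∏ j ∈ Finset.range b, ‖u j‖ ^ 2 =
        K1 ^ b * ∏ j ∈ Finset.range b, (‖u j‖ ^ 2 * dt j) := by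
      rw [Finset.prod_mul_distrib]
      ring
    have h2 : ∏ j ∈ Finset.range b, (‖u j‖ ^ 2 * dt j) ≤ ∏ _j ∈ Finset.range b, M * X :=
      Finset.prod_le_prod (fun j _ => mul_nonneg (sq_nonneg _) (hdt0 j)) fun j hj => hdet j (Finset.mem_range.1 hj)
    rw [Finset.prod_const, Finset.card_range] at h2
    rw [h1, mul_assoc K1 M X, mul_pow K1 (M * X)]
    exact mul_le_mul_of_nonneg_left h2 (pow_nonneg hK0.le _)
  rw [hprod]
  have hA0 : 0 ≤ K1 ^ b * ∏ j ∈ Finset.range b, dt j :=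
    mul_nonneg (pow_nonneg hK0.le _) (Finset.prod_nonneg fun j _ => hdt0 j)
  calc ENNReal.ofReal (s ^ m) * ENNReal.ofReal (∏ j ∈ Finset.range b, ‖u j‖ ^ 2)
      ≤ (ENNReal.ofReal (K1 ^ b * ∏ j ∈ Finset.range b, dt j) *
        volume {v : W m | ‖v‖ ≤ e0 ∧ ∀ i ≤ b * n0, D (Φ (i * l) z0) (Φ (i * l) (κ z0 (0, v))) ≤ s}) *
          ENNReal.ofReal (∏ j ∈ Finset.range b, ‖u j‖ ^ 2) := by gcongr
    _ = ENNReal.ofReal ((K1 ^ b * ∏ j ∈ Finset.range b, dt j) * ∏ j ∈ Finset.range b, ‖u j‖ ^ 2) *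
        volume {v : W m | ‖v‖ ≤ e0 ∧ ∀ i ≤ b * n0, D (Φ (i * l) z0) (Φ (i * l) (κ z0 (0, v))) ≤ s} := by
      rw [ENNReal.ofReal_mul hA0]
      ring
    _ ≤ _ := by
      gcongr

theorem DWT_pow {M R e2 : ℝ} (hM : 1 ≤ M) (hR : 1 ≤ R) (he : 0 ≤ e2) :
    M ^ (⌊e2 * Real.log R⌋₊) ≤ R ^ (e2 * Real.log M) := by
  have h0 : 0 ≤ e2 * Real.log R := mul_nonneg he (Real.log_nonneg hR)
  have hM0 : 0 < M := by linarith
  have hR0 : 0 < R := by linarith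
  calc M ^ (⌊e2 * Real.log R⌋₊) = M ^ ((⌊e2 * Real.log R⌋₊ : ℕ) : ℝ) := (Real.rpow_natCast _ _).symm
    _ ≤ M ^ (e2 * Real.log R) := Real.rpow_le_rpow_of_exponent_le hM (Nat.floor_le h0)
    _ = R ^ (e2 * Real.log M) := by
      rw [Real.rpow_def_of_pos hM0, Real.rpow_def_of_pos hR0]
      congr 1
      ring

theorem DWT_adm {C C2 : ℝ} {A : Par} (h : Adm C2 A) (hC : 1 ≤ C) (hCC : C ≤ C2) : Adm C A := by
  have h1 : 0 ≤ A.z1 := le_trans (mul_nonneg (by linarith) h.z.le) h.z1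
  have h2 : 0 ≤ A.z2 := le_trans (mul_nonneg (by linarith) h1) h.z2
  exact ⟨h.e2, (mul_le_mul_of_nonneg_right hCC h.e2.le).trans h.e2', h.z, (mul_le_mul_of_nonneg_right hCC h.z.le).trans h.z1,
    (mul_le_mul_of_nonneg_right hCC h1).trans h.z2, (mul_le_mul_of_nonneg_right hCC h2).trans h.up⟩

/-- the powers of `R` -/
theorem DWT_real {m b : ℕ} {R s K1 M MB CK C1 z2 Cf : ℝ} (hR : 1 ≤ R) (hs : s = R ^ (-(1 / 2) + C1 * z2)) (hb : 1 ≤ b)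
    (hz2 : 0 < z2) (hC1 : 0 ≤ C1) (hK1 : 0 ≤ K1) (hM : 0 ≤ M) (hMB : 0 ≤ MB) (hCf : CK + 1 ≤ Cf) (h : (K1 * M) ^ b * MB ≤ R ^ z2) :
    (s ^ m)⁻¹ * ((K1 * M * R ^ (2 * ((m + 1 : ℕ) : ℝ) + CK * z2)) ^ b * MB) ≤
      R ^ (2 * ((m : ℝ) + 1) * b + (m : ℝ) / 2 + Cf * b * z2) := by
  have hR0 : 0 < R := by linarith
  have hb1 : (1 : ℝ) ≤ b := by exact_mod_cast hb
  have h1 : (s ^ m)⁻¹ ≤ R ^ ((m : ℝ) / 2) := by
    rw [hs, ← Real.rpow_natCast (R ^ (-(1 / 2) + C1 * z2)) m, ← Real.rpow_mul hR0.le, ← Real.rpow_neg hR0.le]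
    refine Real.rpow_le_rpow_of_exponent_le hR ?_
    have h2 : 0 ≤ C1 * z2 * m := by positivity
    linarith
  have h2 : (K1 * M * R ^ (2 * ((m + 1 : ℕ) : ℝ) + CK * z2)) ^ b * MB =
      ((K1 * M) ^ b * MB) * R ^ ((2 * ((m + 1 : ℕ) : ℝ) + CK * z2) * b) := by
    rw [mul_pow (K1 * M), Real.rpow_mul hR0.le, Real.rpow_natCast]
    ring
  rw [h2]
  have h3 : 0 ≤ R ^ ((2 * ((m + 1 : ℕ) : ℝ) + CK * z2) * b) := (Real.rpow_pos_of_pos hR0 _).le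
  calc (s ^ m)⁻¹ * (((K1 * M) ^ b * MB) * R ^ ((2 * ((m + 1 : ℕ) : ℝ) + CK * z2) * b))
      ≤ R ^ ((m : ℝ) / 2) * (R ^ z2 * R ^ ((2 * ((m + 1 : ℕ) : ℝ) + CK * z2) * b)) := by
        refine mul_le_mul h1 (mul_le_mul_of_nonneg_right h h3) ?_ (Real.rpow_pos_of_pos hR0 _).le
        positivity
    _ = R ^ ((m : ℝ) / 2 + (z2 + (2 * ((m + 1 : ℕ) : ℝ) + CK * z2) * b)) := by
        rw [Real.rpow_add hR0, Real.rpow_add hR0]
    _ ≤ _ := by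
        refine Real.rpow_le_rpow_of_exponent_le hR ?_
        push_cast
        have h4 : z2 ≤ b * z2 := le_mul_of_one_le_left hz2.le hb1
        have h5 : (CK + 1) * (b * z2) ≤ Cf * (b * z2) := mul_le_mul_of_nonneg_right hCf (by positivity)
        nlinarith

theorem DWT_proof (hKUB : KUB_stmt) (hDCM : DCM_stmt) (hDPR : DPR_stmt) (hBDV : BDV_stmt) (hSGE : SGE_stmt)
    (hEFX : EFX_stmt) (hGXH : GXH_stmt) : DWT_stmt := by
  intro m Γ _ _ K r0 χ ch η k B c C' e0 e1 C1 hFd hPU hCH hCtf hc hC' he0 he1 hC1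
  obtain ⟨rK, hrK⟩ : ∃ rK, K ⊆ Metric.closedBall (0 : V (m + 1)) rK := hFd.compact.isBounded.subset_closedBall 0
  obtain ⟨r', hr1, hr2⟩ : ∃ r' : ℝ, r0 + 1 ≤ r' ∧ rK ≤ r' := ⟨max (r0 + 1) rK, le_max_left _ _, le_max_right _ _⟩
  have hKK : K ⊆ Metric.closedBall 0 r' := hrK.trans (Metric.closedBall_subset_closedBall hr2)
  obtain ⟨Cg, hCg, hg⟩ := hSGE (m + 1) Γ K (Metric.closedBall 0 r') k B η hFd hCtf hKK (isCompact_closedBall _ _)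
  obtain ⟨Ce, hCe, he⟩ := hEFX (m + 1) Γ K k B η hFd hCtf
  obtain ⟨C0, hC0g, hC0e⟩ : ∃ C0 : ℝ, Cg ≤ C0 ∧ Ce ≤ C0 := ⟨max Cg Ce, le_max_left _ _, le_max_right _ _⟩
  have hC0 : 1 ≤ C0 := hCg.trans hC0g
  obtain ⟨K1, ρ0, hK1, hρ0, hdpr⟩ := hDPR m C0 c C' e0 e1 hC0
  obtain ⟨M, hM, hdcm⟩ := hDCM (m + 1) C0 K1 hC0 hK1
  obtain ⟨MB, hMB, hbdv⟩ := hBDV m c C' e0 e1 hc hC' he0 he1
  obtain ⟨CK, hCK, hkub⟩ := hKUB (m + 1) Γ K k B r0 χ hFd hPU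
  have hlM : 0 ≤ Real.log M := Real.log_nonneg hM
  refine ⟨CK + 10 * C1 + 10 * Real.log M + 1, by linarith, fun A b hA hb => ?_⟩
  have hAK : Adm CK A := DWT_adm hA hCK (by linarith)
  have hA10 : Adm (10 * C1) A := DWT_adm hA (by linarith) (by linarith)
  obtain ⟨R1, hR1, hkub'⟩ := hkub ch A hCH hAK
  have hz1 : 0 < A.z1 := lt_of_lt_of_le (mul_pos (by linarith) hA.z) hAK.z1
  have hz2 : 0 < A.z2 := lt_of_lt_of_le (mul_pos (by linarith) hz1) hAK.z2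
  have hC1z : C1 * A.z2 ≤ 1 / 10 := by
    have h1 := hA10.up
    linarith
  have heM : A.e2 * Real.log M ≤ 1 / 10 := by
    have h1 := hA.e2'
    have h2 := hA.e2
    have h3 : 10 * Real.log M * A.e2 ≤ (CK + 10 * C1 + 10 * Real.log M + 1) * A.e2 :=
      mul_le_mul_of_nonneg_right (by linarith) h2.le
    linarith
  have ev1 : ∀ᶠ R : ℝ in atTop, R1 ≤ R := eventually_ge_atTop R1
  have ev2 : ∀ᶠ R : ℝ in atTop, R ^ (-(1 / 4) : ℝ) ≤ 1 / 12 :=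
    (tendsto_rpow_neg_atTop (by norm_num : (0 : ℝ) < 1 / 4)).eventually_le_const (by norm_num)
  have ev3 : ∀ᶠ R : ℝ in atTop, R ^ (-(2 / 5) : ℝ) ≤ min (min e1 ρ0) (min (1 / (20 * C0 ^ 3)) (1 / MB)) := by
    refine (tendsto_rpow_neg_atTop (by norm_num : (0 : ℝ) < 2 / 5)).eventually_le_const ?_
    refine lt_min (lt_min he1 hρ0) (lt_min (by positivity) (by positivity))
  have ev4 : ∀ᶠ R : ℝ in atTop, R ^ (-(3 / 10) : ℝ) ≤ 1 / (5 * M ^ 2) :=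
    (tendsto_rpow_neg_atTop (by norm_num : (0 : ℝ) < 3 / 10)).eventually_le_const (by positivity)
  have ev5 : ∀ᶠ R : ℝ in atTop, max MB ((K1 * M) ^ b * MB) ≤ R ^ A.z2 :=
    (tendsto_rpow_atTop hz2).eventually_ge_atTop _
  obtain ⟨R0, hR0⟩ := eventually_atTop.1 (ev1.and (ev2.and (ev3.and (ev4.and ev5))))
  refine ⟨max R0 1, le_max_right _ _, fun R G Φ κ hR hcls hfl hS w v0 hw0 hv0 hw => ?_⟩
  obtain ⟨k1, k2, k3, k4, k5⟩ := hR0 R ((le_max_left _ _).trans hR)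
  have hR1' : 1 ≤ R := (le_max_right _ _).trans hR
  have hRp : 0 < R := by linarith
  obtain ⟨s, hs⟩ : ∃ s : ℝ, s = R ^ (-(1 / 2) + C1 * A.z2) := ⟨_, rfl⟩
  have hs0 : 0 < s := by rw [hs]; exact Real.rpow_pos_of_pos hRp _
  have hs25 : s ≤ R ^ (-(2 / 5) : ℝ) := by
    rw [hs]
    exact Real.rpow_le_rpow_of_exponent_le hR1' (by linarith)
  have hsmin := hs25.trans k3
  have hse1 : s ≤ e1 := hsmin.trans ((min_le_left _ _).trans (min_le_left _ _))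
  have hsρ : s ≤ ρ0 := hsmin.trans ((min_le_left _ _).trans (min_le_right _ _))
  have hsC : s ≤ 1 / (20 * C0 ^ 3) := hsmin.trans ((min_le_right _ _).trans (min_le_left _ _))
  have hsB : s ≤ 1 / MB := hsmin.trans ((min_le_right _ _).trans (min_le_right _ _))
  have hC0p : 0 < C0 := by linarith
  have hMBp : 0 < MB := by linarith
  have hMp : 0 < M := by linarith
  have hC4 : 4 * C0 ^ 3 * (5 * s) ≤ 1 := by
    rw [le_div_iff₀ (by positivity)] at hsC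
    linarith
  have hMn : M ^ (A.n R + 1 + 1) * (5 * s) ≤ 1 := by
    have h1 : M ^ (A.n R) ≤ R ^ (1 / 10 : ℝ) :=
      (DWT_pow hM hR1' hA.e2.le).trans (Real.rpow_le_rpow_of_exponent_le hR1' heM)
    have h2 : R ^ (1 / 10 : ℝ) * R ^ (-(2 / 5) : ℝ) = R ^ (-(3 / 10) : ℝ) := by
      rw [← Real.rpow_add hRp]
      norm_num
    rw [le_div_iff₀ (by positivity)] at k4
    calc M ^ (A.n R + 1 + 1) * (5 * s) = M ^ (A.n R) * s * (5 * M ^ 2) := by ring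
      _ ≤ R ^ (1 / 10 : ℝ) * R ^ (-(2 / 5) : ℝ) * (5 * M ^ 2) := by gcongr
      _ = R ^ (-(3 / 10) : ℝ) * (5 * M ^ 2) := by rw [h2]
      _ ≤ 1 := k4
  have hG := DWT_geo (hg G Φ hcls hfl) hC0g
  have hE := he C0 hC0e G Φ hcls hfl
  have hH := (hGXH (m + 1) G hcls.met).2.2.2.1
  have hl := DWT_win hH hw0 (by linarith)
  have hw2 : ∀ j ≤ b, 3 / 4 ≤ nrm G (w j).2 ∧ nrm G (w j).2 ≤ 5 / 4 := fun j hj => DWT_win hH (hw j hj).1 (by linarith)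
  have htu : A.tu R = ((A.n R + 1 : ℕ) : ℝ) := by
    unfold Par.tu
    push_cast
    ring
  have hcore := DWT_core hG hE hr1 hS b (A.n R + 1) hb (Nat.le_add_left 1 _) w v0 rfl hl.1 hl.2
    (fun j hj => (hw j hj).1.1) hw2 (by rw [hs]; exact hv0) hs0 hse1 hsρ hC4 hMn hM hK1
    (fun j hj => by
      have h1 := (hw j hj).2
      rw [htu, ← hs] at h1
      exact h1)
    (fun z l b n0 gam => hdpr Γ (Metric.closedBall 0 r') G Φ (dP Γ η) κ hG (fun t l p _ => hE.sf t l p) hS z l b n0 gam)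
    (hdcm Γ (Metric.closedBall 0 r') G Φ (dP Γ η) hG hE)
    (fun j => ub G Φ r0 χ ch A R (w j) (w (j + 1)))
    (fun j hj => by
      have h1 := hkub' R G Φ (w j) (w (j + 1)) k1 hcls hfl (hw j hj.le).1
      rw [htu] at h1
      exact h1)
  have hz : dir G (w 0).2 ∈ Shl G := by
    have l0 : 0 < nrm G (w 0).2 := by linarith [hl.1]
    have h3 : dir G (w 0).2 = sc (nrm G (w 0).2)⁻¹ (w 0).2 := rfl
    change nrm G (dir G (w 0).2) = 1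
    rw [h3, hE.sn, abs_of_pos (inv_pos.2 l0), inv_mul_cancel₀ l0.ne']
  have hMBs : MB * s ≤ R ^ (-(1 / 2) + (CK + 10 * C1 + 10 * Real.log M + 1) * A.z2) := by
    have h1 : MB ≤ R ^ A.z2 := (le_max_left _ _).trans k5
    calc MB * s ≤ R ^ A.z2 * R ^ (-(1 / 2) + C1 * A.z2) := by rw [hs]; gcongr
      _ = R ^ (A.z2 + (-(1 / 2) + C1 * A.z2)) := (Real.rpow_add hRp _ _).symm
      _ ≤ _ := by
        refine Real.rpow_le_rpow_of_exponent_le hR1' ?_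
        have h2 : (C1 + 1) * A.z2 ≤ (CK + 10 * C1 + 10 * Real.log M + 1) * A.z2 :=
          mul_le_mul_of_nonneg_right (by linarith) hz2.le
        linarith
  have hMBs1 : MB * s ≤ 1 := by
    rw [le_div_iff₀ hMBp] at hsB
    linarith
  have hB := hbdv (Shl G) (dP Γ η) Φ κ hS hE.d0 hE.dt hE.f0 (dir G (w 0).2) (nrm G (w 0).2) (b * (A.n R + 1))
    (R ^ (-(1 / 2) + (CK + 10 * C1 + 10 * Real.log M + 1) * A.z2)) s v0 hz hs0 (by rw [hs]; exact hv0) hMBs hMBs1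
  have hfin := hcore.trans (mul_le_mul_right hB _)
  have hreal := DWT_real (m := m) hR1' hs hb hz2 (by linarith) (by linarith : (0 : ℝ) ≤ K1) hMp.le hMBp.le
    (by linarith : CK + 1 ≤ CK + 10 * C1 + 10 * Real.log M + 1) ((le_max_right _ _).trans k5)
  have hsm : 0 < s ^ m := pow_pos hs0 m
  have hX0 : 0 ≤ (K1 * M * R ^ (2 * ((m + 1 : ℕ) : ℝ) + CK * A.z2)) ^ b := by
    have h1 : 0 ≤ R ^ (2 * ((m + 1 : ℕ) : ℝ) + CK * A.z2) := (Real.rpow_pos_of_pos hRp _).le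
    have h2 : 0 ≤ K1 := by linarith
    positivity
  have hone : ENNReal.ofReal ((s ^ m)⁻¹) * ENNReal.ofReal (s ^ m) = 1 := by
    rw [← ENNReal.ofReal_mul (inv_nonneg.2 hsm.le), inv_mul_cancel₀ hsm.ne', ENNReal.ofReal_one]
  rw [← hs]
  calc ∏ j ∈ Finset.range b, ‖ub G Φ r0 χ ch A R (w j) (w (j + 1))‖ₑ ^ 2
      = ENNReal.ofReal ((s ^ m)⁻¹) * (ENNReal.ofReal (s ^ m) *
        ∏ j ∈ Finset.range b, ‖ub G Φ r0 χ ch A R (w j) (w (j + 1))‖ₑ ^ 2) := by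
        rw [← mul_assoc, hone, one_mul]
    _ ≤ ENNReal.ofReal ((s ^ m)⁻¹) * (ENNReal.ofReal ((K1 * M * R ^ (2 * ((m + 1 : ℕ) : ℝ) + CK * A.z2)) ^ b) *
        (ENNReal.ofReal MB * volume (BD (dP Γ η) Φ κ (dir G (w 0).2) (nrm G (w 0).2) (b * (A.n R + 1))
          (R ^ (-(1 / 2) + (CK + 10 * C1 + 10 * Real.log M + 1) * A.z2)) s v0))) := by gcongr
    _ = ENNReal.ofReal ((s ^ m)⁻¹ * ((K1 * M * R ^ (2 * ((m + 1 : ℕ) : ℝ) + CK * A.z2)) ^ b * MB)) *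
        volume (BD (dP Γ η) Φ κ (dir G (w 0).2) (nrm G (w 0).2) (b * (A.n R + 1))
          (R ^ (-(1 / 2) + (CK + 10 * C1 + 10 * Real.log M + 1) * A.z2)) s v0) := by
        rw [ENNReal.ofReal_mul (inv_nonneg.2 hsm.le), ENNReal.ofReal_mul hX0]
        ring
    _ ≤ _ := by
        gcongr

end

end Pool.Agent.VD
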