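import Pool.Agent.helper11.VD.SpecC

/-!
# MP_07c750_an, project VD, row vd:FDE
-/

set_option autoImplicit false

open scoped ContDiff Topology InnerProductSpace ENNReal ComplexConjugate
open MeasureTheory Filter Set

namespace Pool.Agent.VD

/-- the coordinates with the lexicographic order -/
def FDE_L {d : ℕ} (x : V d) : Lex (Fin d → ℝ) := toLex (fun i => x i)

theorem FDE_inj {d : ℕ} {x y : V d} (h : FDE_L x = FDE_L y) : x = y := by
  ext i
  exact congrFun (toLex_inj.mp h) i

theorem FDE_lt {d : ℕ} (x y : V d) :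
    FDE_L x < FDE_L y ↔ ∃ i : Fin d, (∀ j, j < i → x j = y j) ∧ x i < y i := Iff.rfl

theorem FDE_coord {d : ℕ} (i : Fin d) : Measurable (fun x : V d => x i) := by
  have h : Continuous (fun x : V d => x i) := by fun_prop
  exact h.measurable

theorem FDE_ms {d : ℕ} (φ : V d → V d) (hφ : Continuous φ) :
    MeasurableSet {x : V d | FDE_L x ≤ FDE_L (φ x)} := by
  have h1 : {x : V d | FDE_L x ≤ FDE_L (φ x)} = {x : V d | x = φ x} ∪
      ⋃ i : Fin d, ((⋂ j : Fin d, {x : V d | j < i → x j = φ x j}) ∩ {x : V d | x i < φ x i}) := by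
    ext x
    constructor
    · intro h
      rcases eq_or_lt_of_le (show FDE_L x ≤ FDE_L (φ x) from h) with h2 | h2
      · exact Or.inl (FDE_inj h2)
      · obtain ⟨i, hi1, hi2⟩ := (FDE_lt _ _).mp h2
        exact Or.inr (Set.mem_iUnion.mpr ⟨i, Set.mem_iInter.mpr hi1, hi2⟩)
    · rintro (h | h)
      · exact le_of_eq (congrArg FDE_L h)
      · obtain ⟨i, hi1, hi2⟩ := Set.mem_iUnion.mp h
        exact le_of_lt ((FDE_lt _ _).mpr ⟨i, Set.mem_iInter.mp hi1, hi2⟩)
  rw [h1]
  refine MeasurableSet.union (isClosed_eq continuous_id hφ).measurableSet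
    (MeasurableSet.iUnion fun i => MeasurableSet.inter (MeasurableSet.iInter fun j => ?_) ?_)
  · by_cases hj : j < i
    · have h2 : {x : V d | j < i → x j = φ x j} = {x : V d | x j = φ x j} := by
        ext x
        exact ⟨fun h => h hj, fun h _ => h⟩
      rw [h2]
      exact measurableSet_eq_fun (FDE_coord j) ((FDE_coord j).comp hφ.measurable)
    · have h2 : {x : V d | j < i → x j = φ x j} = Set.univ := by
        ext x
        exact ⟨fun _ => Set.mem_univ x, fun _ h => absurd h hj⟩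
      rw [h2]
      exact MeasurableSet.univ
  · exact measurableSet_lt (FDE_coord i) ((FDE_coord i).comp hφ.measurable)

theorem FDE_proof (hCTD : CTD_stmt) : FDE_stmt := by
  intro d Γ _ _ K hK
  haveI : Countable Γ := hCTD d Γ K hK
  have hKm : MeasurableSet K := hK.compact.isClosed.measurableSet
  have hcont : ∀ γ : Γ, Continuous (fun x : V d => γ • x) := fun γ => (hK.smooth γ).continuous
  refine ⟨K ∩ ⋂ γ : Γ, ({x : V d | γ • x ∈ K}ᶜ ∪ {x : V d | FDE_L x ≤ FDE_L (γ • x)}), ?_,
    Set.inter_subset_left, ?_⟩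
  · refine hKm.inter (MeasurableSet.iInter fun γ => MeasurableSet.union ?_ (FDE_ms _ (hcont γ)))
    exact ((hcont γ).measurable hKm).compl
  · intro x
    have hfin : {γ : Γ | γ • x ∈ K}.Finite := by
      refine (hK.proper (K ∪ {x}) (hK.compact.union isCompact_singleton)).subset ?_
      intro γ hγ
      exact ⟨x, Or.inr rfl, Or.inl hγ⟩
    obtain ⟨γ1, hγ1⟩ := hK.cover x
    obtain ⟨γ0, hγ0, hmin⟩ := hfin.exists_minimalFor (fun γ => FDE_L (γ • x))
      {γ : Γ | γ • x ∈ K} ⟨γ1, hγ1⟩
    have hmin' : ∀ γ : Γ, γ • x ∈ K → FDE_L (γ0 • x) ≤ FDE_L (γ • x) := by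
      intro γ hγ
      rcases le_total (FDE_L (γ0 • x)) (FDE_L (γ • x)) with h | h
      · exact h
      · exact hmin hγ h
    refine ⟨γ0, ⟨hγ0, Set.mem_iInter.mpr fun γ => ?_⟩, ?_⟩
    · by_cases hγ : γ • γ0 • x ∈ K
      · right
        show FDE_L (γ0 • x) ≤ FDE_L (γ • γ0 • x)
        rw [smul_smul] at hγ ⊢
        exact hmin' _ hγ
      · left
        exact hγ
    · rintro γ ⟨hγK, hγ⟩
      have h1 := Set.mem_iInter.mp hγ (γ0 * γ⁻¹)
      have h2 : (γ0 * γ⁻¹) • γ • x = γ0 • x := by
        rw [smul_smul, inv_mul_cancel_right]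
      have h3 : FDE_L (γ • x) ≤ FDE_L (γ0 • x) := by
        rcases h1 with h1 | h1
        · exfalso
          apply h1
          show (γ0 * γ⁻¹) • γ • x ∈ K
          rw [h2]
          exact hγ0
        · have h4 : FDE_L (γ • x) ≤ FDE_L ((γ0 * γ⁻¹) • γ • x) := h1
          rw [h2] at h4
          exact h4
      have h5 : γ • x = γ0 • x := FDE_inj (le_antisymm h3 (hmin' γ hγK))
      have h6 : (γ0⁻¹ * γ) • x = x := by
        rw [mul_smul, h5, inv_smul_smul]
      have h7 := hK.free _ _ h6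
      exact (eq_of_inv_mul_eq_one h7).symm

end Pool.Agent.VD
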